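import Mathlib
import Pool.Agent.V11150.ForcingTime

set_option autoImplicit false

namespace Pool.Agent.Results.MP_f79b02_co.FiniteForcingTime

open Pool.Agent.V11150.BuilderChooser

/-- Q1 of MP_f79b02_co: `ρ(k)` is finite for every `k ≥ 3`, under both readings of the forcing
time. -/
theorem result (k : ℕ) (hk : 3 ≤ k) : rhoAt k < ⊤ ∧ rhoBy k < ⊤ := by
  have h2 : rhoAt k < ⊤ := lt_of_le_of_lt (rhoAt_le k hk) (ENat.natCast_lt_top _)
  exact ⟨h2, lt_of_le_of_lt (rhoBy_le_rhoAt k) h2⟩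

end Pool.Agent.Results.MP_f79b02_co.FiniteForcingTime
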