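import Mathlib
import Pool.Agent.V11150.ForcingTime

set_option autoImplicit false

namespace Pool.Agent.Results.MP_f79b02_co.TowerGrowth

open Pool.Agent.V11150.BuilderChooser

/-- Q2 of MP_f79b02_co: `ρ(k)` grows like a tower of twos of height `k + O(1)`, under both readings
of the forcing time. -/
theorem result (k : ℕ) (hk : 3 ≤ k) :
    ((twr (k - 10) : ℕ) : ℕ∞) ≤ rhoBy k ∧ rhoBy k ≤ rhoAt k ∧ rhoAt k ≤ (twr (k - 2) : ℕ) :=
  ⟨le_rhoBy k hk, rhoBy_le_rhoAt k, rhoAt_le k hk⟩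

end Pool.Agent.Results.MP_f79b02_co.TowerGrowth
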